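import Mathlib
import Pool.Agent.Q147.LusinGamma

namespace Pool.Agent.Results.MP_1599f7_gt.LusinGammaUnderCH

open Set Filter Topology

/-- Lusin spaces in the sense of Kunen. -/
def IsLusin (X : Type) [TopologicalSpace X] : Prop :=
  T2Space X ∧ (∀ N : Set X, IsNowhereDense N → N.Countable) ∧
    {x : X | IsOpen ({x} : Set X)}.Countable ∧ ¬ Countable X

/-- Open `ω`-covers. -/
def IsOmegaCover {X : Type} [TopologicalSpace X] (𝒰 : Set (Set X)) : Prop :=
  (∀ U ∈ 𝒰, IsOpen U) ∧ univ ∉ 𝒰 ∧ ∀ F : Set X, F.Finite → ∃ U ∈ 𝒰, F ⊆ U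

/-- Open `γ`-covers (infinite ones). -/
def IsGammaCover {X : Type} [TopologicalSpace X] (𝒰 : Set (Set X)) : Prop :=
  (∀ U ∈ 𝒰, IsOpen U) ∧ ⋃₀ 𝒰 = univ ∧ univ ∉ 𝒰 ∧ 𝒰.Infinite ∧ ∀ x : X, {U ∈ 𝒰 | x ∉ U}.Finite

/-- `γ`-spaces. -/
def IsGammaSpace (X : Type) [TopologicalSpace X] : Prop :=
  ∀ 𝒰 : Set (Set X), IsOmegaCover 𝒰 → ∃ 𝒱 ⊆ 𝒰, IsGammaCover 𝒱

/-- Under the continuum hypothesis some Lusin space is a `γ`-space. -/
theorem result (CH : Cardinal.continuum.{0} = Cardinal.aleph 1) :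
    ∃ (X : Type) (_ : TopologicalSpace X), IsLusin X ∧ IsGammaSpace X := by
  obtain ⟨I, hI, hE⟩ := Pool.Agent.Q147.TowerSpace.exists_enum CH
  obtain ⟨x, hx⟩ := Pool.Agent.Q147.RTower.exists_RT hE
  have hunc : Uncountable I := hE.unc
  have hne : Nonempty I := inferInstance
  refine ⟨Pool.Agent.Q147.LusinGamma.LSp x, inferInstance,
    ⟨Pool.Agent.Q147.LusinGamma.t2 hx, Pool.Agent.Q147.LusinGamma.lusin hx hE, ?_, ?_⟩, ?_⟩
  · have : {q : Pool.Agent.Q147.LusinGamma.LSp x | IsOpen ({q} : Set _)} = ∅ := by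
      rw [eq_empty_iff_forall_notMem]
      exact fun q hq => Pool.Agent.Q147.LusinGamma.not_isolated hx hE q hq
    rw [this]
    exact countable_empty
  · intro hc
    have : Countable I := Function.Injective.countable
      (f := fun i : I => (Pool.Agent.Q147.LusinGamma.LSp.tw i :
        Pool.Agent.Q147.LusinGamma.LSp x)) (by
        intro i j hij
        injection hij)
    exact not_countable (α := I) this
  · rintro 𝒰 ⟨h1, h2, h3⟩
    obtain ⟨V, hV1, hV2⟩ := Pool.Agent.Q147.LusinGamma.gamma hx hE 𝒰 h1 h3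
    refine ⟨range V, ?_, ?_, ?_, ?_, ?_, ?_⟩
    · rintro _ ⟨n, rfl⟩
      exact hV1 n
    · rintro _ ⟨n, rfl⟩
      exact h1 _ (hV1 n)
    · rw [eq_univ_iff_forall]
      intro q
      obtain ⟨n, hn⟩ := (hV2 q).exists_notMem
      rw [mem_ofPred_eq, not_not] at hn
      exact ⟨V n, mem_range_self n, hn⟩
    · rintro ⟨n, hn⟩
      exact h2 (hn ▸ hV1 n)
    · intro hfin
      -- some member is repeated infinitely often
      have h4 : (univ : Set ℕ) ⊆ ⋃ W ∈ range V, {n | V n = W} := by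
        intro n _
        simp only [mem_iUnion]
        exact ⟨V n, mem_range_self n, rfl⟩
      have h5 : ∃ W ∈ range V, {n | V n = W}.Infinite := by
        by_contra hno
        push Not at hno
        exact infinite_univ ((hfin.biUnion hno).subset h4)
      obtain ⟨W, ⟨m, rfl⟩, hW⟩ := h5
      apply h2
      have : V m = univ := by
        rw [eq_univ_iff_forall]
        intro q
        by_contra hq
        apply hW
        refine (hV2 q).subset ?_
        intro n hn
        rw [mem_ofPred_eq] at hn ⊢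
        rw [hn]
        exact hq
      rw [← this]
      exact hV1 m
    · intro q
      refine ((hV2 q).image V).subset ?_
      rintro _ ⟨⟨n, rfl⟩, hn⟩
      exact ⟨n, hn, rfl⟩

end Pool.Agent.Results.MP_1599f7_gt.LusinGammaUnderCH
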